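import Mathlib

/-!
# Weakly closed subgroups of a separable Hilbert space are not both discrete and relatively dense
-/

set_option autoImplicit false

namespace Pool.Agent.Run7.h163.WL

open Set Topology TopologicalSpace

variable {E : Type*} [NormedAddCommGroup E] [InnerProductSpace ℝ E]

/-- closed balls of a Hilbert space are weakly compact -/
lemma ball_compact [CompleteSpace E] (c : E) (R : ℝ) :
    IsCompact (toWeakSpace ℝ E '' Metric.closedBall c R) := by
  have h1 := WeakDual.isCompact_closedBall (𝕜 := ℝ) (E := E) (InnerProductSpace.toDual ℝ E c) R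
  let ψ : WeakDual ℝ E → WeakSpace ℝ E := fun f =>
    toWeakSpace ℝ E ((InnerProductSpace.toDual ℝ E).symm (WeakDual.toStrongDual f))
  have hψ : Continuous ψ := by
    apply WeakBilin.continuous_of_continuous_eval
    intro g
    have h2 : (fun f : WeakDual ℝ E => f ((InnerProductSpace.toDual ℝ E).symm g)) =
        fun a => ((topDualPairing ℝ E).flip (ψ a)) g := by
      funext f
      change f ((InnerProductSpace.toDual ℝ E).symm g) =
        g ((InnerProductSpace.toDual ℝ E).symm (WeakDual.toStrongDual f))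
      have h3 : f ((InnerProductSpace.toDual ℝ E).symm g) =
          (WeakDual.toStrongDual f) ((InnerProductSpace.toDual ℝ E).symm g) := rfl
      rw [h3, ← InnerProductSpace.toDual_symm_apply (𝕜 := ℝ) (y := WeakDual.toStrongDual f),
        ← InnerProductSpace.toDual_symm_apply (𝕜 := ℝ) (y := g)]
      exact real_inner_comm _ _
    rw [← h2]
    exact WeakDual.eval_continuous _
  have h4 : toWeakSpace ℝ E '' Metric.closedBall c R =
      ψ '' (WeakDual.toStrongDual ⁻¹' Metric.closedBall (InnerProductSpace.toDual ℝ E c) R) := by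
    ext w
    constructor
    · rintro ⟨x, hx, rfl⟩
      refine ⟨StrongDual.toWeakDual (InnerProductSpace.toDual ℝ E x), ?_, ?_⟩
      · simp only [mem_preimage, StrongDual.toStrongDual_toWeakDual, Metric.mem_closedBall]
        rw [LinearIsometryEquiv.dist_map]
        exact hx
      · simp [ψ]
    · rintro ⟨f, hf, rfl⟩
      refine ⟨(InnerProductSpace.toDual ℝ E).symm (WeakDual.toStrongDual f), ?_, rfl⟩
      rw [mem_preimage, Metric.mem_closedBall] at hf
      rw [Metric.mem_closedBall, ← LinearIsometryEquiv.dist_map (InnerProductSpace.toDual ℝ E),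
        LinearIsometryEquiv.apply_symm_apply]
      exact hf
  rw [h4]
  exact h1.image hψ

/-- finitely many functionals have a common zero of every norm -/
lemma exists_ker (hE : ¬ FiniteDimensional ℝ E) (s : Finset (StrongDual ℝ E)) {r : ℝ} (hr : 0 < r) :
    ∃ z : E, ‖z‖ = r ∧ ∀ f ∈ s, f z = 0 := by
  have h1 : ∃ z : E, z ≠ 0 ∧ ∀ f ∈ s, f z = 0 := by
    by_contra hcon
    push Not at hcon
    apply hE
    let T : E →ₗ[ℝ] (s → ℝ) := LinearMap.pi (fun f : s => ((f : StrongDual ℝ E) : E →ₗ[ℝ] ℝ))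
    apply FiniteDimensional.of_injective T
    rw [← LinearMap.ker_eq_bot, LinearMap.ker_eq_bot']
    intro z hz
    by_contra hz0
    obtain ⟨f, hf, hfz⟩ := hcon z hz0
    apply hfz
    have := congrFun hz ⟨f, hf⟩
    simpa [T] using this
  obtain ⟨z, hz, hf⟩ := h1
  have hz0 : 0 < ‖z‖ := norm_pos_iff.2 hz
  refine ⟨(r / ‖z‖) • z, ?_, ?_⟩
  · rw [norm_smul, Real.norm_eq_abs, abs_of_pos (by positivity)]
    field_simp
  · intro f hfs
    rw [map_smul, hf f hfs, smul_zero]

/-- a weakly closed subgroup is not both discrete and relatively dense -/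
theorem no_group [CompleteSpace E] [SeparableSpace E] (hE : ¬ FiniteDimensional ℝ E) (Λ : AddSubgroup E)
    (hw : IsClosed (toWeakSpace ℝ E '' (Λ : Set E))) {δ ρ : ℝ} (hδ : 0 < δ)
    (hsep : ∀ l ∈ Λ, l ≠ 0 → δ ≤ ‖l‖) (hden : ∀ x : E, ∃ l ∈ Λ, ‖x - l‖ ≤ ρ) : False := by
  let e : E ≃ₗ[ℝ] WeakSpace ℝ E := toWeakSpace ℝ E
  let L : AddSubgroup (WeakSpace ℝ E) := Λ.map (e : E →+ WeakSpace ℝ E)
  have hL : (L : Set (WeakSpace ℝ E)) = toWeakSpace ℝ E '' (Λ : Set E) := rfl
  have hLc : IsClosed (L : Set (WeakSpace ℝ E)) := by rw [hL]; exact hw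
  let q : WeakSpace ℝ E → WeakSpace ℝ E ⧸ L := fun w => (w : WeakSpace ℝ E ⧸ L)
  have hqc : Continuous q := QuotientAddGroup.continuous_mk
  have hqs : Function.Surjective q := QuotientAddGroup.mk_surjective
  have hqe : ∀ x y : E, q (e x) = q (e y) ↔ y - x ∈ Λ := by
    intro x y
    change ((e x : WeakSpace ℝ E) : WeakSpace ℝ E ⧸ L) = ((e y : WeakSpace ℝ E) : WeakSpace ℝ E ⧸ L) ↔ _
    rw [QuotientAddGroup.eq]
    constructor
    · rintro ⟨l, hl, hle⟩
      have h1 : e l = e (y - x) := by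
        have h2 : e l = -e x + e y := hle
        rw [h2, map_sub]
        abel
      rw [← e.injective h1]
      exact hl
    · intro h
      refine ⟨y - x, h, ?_⟩
      change e (y - x) = -e x + e y
      rw [map_sub]
      abel
  have hcomp : CompactSpace (WeakSpace ℝ E ⧸ L) := by
    refine ⟨?_⟩
    have h1 : (univ : Set (WeakSpace ℝ E ⧸ L)) = q '' (toWeakSpace ℝ E '' Metric.closedBall (0 : E) ρ) := by
      symm
      rw [eq_univ_iff_forall]
      intro g
      obtain ⟨w, rfl⟩ := hqs g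
      obtain ⟨x, rfl⟩ := e.surjective w
      obtain ⟨l, hl, hxl⟩ := hden x
      refine ⟨e (x - l), ⟨x - l, by simpa using hxl, rfl⟩, ?_⟩
      rw [hqe]
      simpa using hl
    rw [h1]
    exact (ball_compact 0 ρ).image hqc
  set r : ℝ := δ / 8 with hr
  have hr0 : 0 < r := by positivity
  have hne : Nonempty E := ⟨0⟩
  let F : ℕ → Set (WeakSpace ℝ E ⧸ L) := fun n =>
    q '' (toWeakSpace ℝ E '' Metric.closedBall (denseSeq E n) r)
  have hFc : ∀ n, IsClosed (F n) := fun n => ((ball_compact _ r).image hqc).isClosed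
  have hFU : ⋃ n, F n = univ := by
    rw [eq_univ_iff_forall]
    intro g
    obtain ⟨w, rfl⟩ := hqs g
    obtain ⟨x, rfl⟩ := e.surjective w
    obtain ⟨n, hn⟩ := (denseRange_denseSeq E).exists_dist_lt x hr0
    rw [mem_iUnion]
    exact ⟨n, e x, ⟨x, Metric.mem_closedBall.2 hn.le, rfl⟩, rfl⟩
  obtain ⟨n, g, hg⟩ := nonempty_interior_of_iUnion_of_closed hFc hFU
  obtain ⟨w, rfl⟩ := hqs g
  obtain ⟨x₀, rfl⟩ := e.surjective w
  have hU : q ⁻¹' (interior (F n)) ∈ 𝓝 (e x₀) := (isOpen_interior.preimage hqc).mem_nhds hg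
  have hs := LinearMap.weakBilin_withSeminorms (topDualPairing ℝ E).flip
  obtain ⟨s, ε, hε, hball⟩ := (hs.mem_nhds_iff (e x₀) (q ⁻¹' (interior (F n)))).1 hU
  obtain ⟨z, hz, hzs⟩ := exists_ker hE s hr0
  have hmem : ∀ k : ℕ, ∃ l ∈ Λ, ‖x₀ + (k : ℝ) • z - l - denseSeq E n‖ ≤ r := by
    intro k
    have h1 : e (x₀ + (k : ℝ) • z) ∈ q ⁻¹' (interior (F n)) := by
      apply hball
      rw [Seminorm.mem_ball]
      apply Seminorm.finset_sup_apply_lt hε
      intro f hf
      change ‖f ((x₀ + (k : ℝ) • z) - x₀)‖ < ε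
      rw [add_sub_cancel_left, map_smul, hzs f hf, smul_zero, norm_zero]
      exact hε
    obtain ⟨w', ⟨y, hy, rfl⟩, hw'⟩ := interior_subset h1
    have h3 := (hqe y (x₀ + (k : ℝ) • z)).1 hw'
    refine ⟨_, h3, ?_⟩
    rw [Metric.mem_closedBall, dist_eq_norm] at hy
    have h4 : x₀ + (k : ℝ) • z - (x₀ + (k : ℝ) • z - y) - denseSeq E n = y - denseSeq E n := by abel
    rw [h4]
    exact hy
  choose l hl hlr using hmem
  have hstep : ∀ k, l (k + 1) = l k := by
    intro k
    by_contra hne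
    have h1 := hsep (l (k + 1) - l k) (Λ.sub_mem (hl _) (hl _)) (sub_ne_zero.2 hne)
    have h2 : l (k + 1) - l k = (x₀ + (k : ℝ) • z - l k - denseSeq E n) -
        (x₀ + ((k + 1 : ℕ) : ℝ) • z - l (k + 1) - denseSeq E n) + z := by
      push_cast
      rw [add_smul, one_smul]
      abel
    have h3 : ‖l (k + 1) - l k‖ ≤ r + r + r := by
      rw [h2]
      exact (norm_add_le _ _).trans (add_le_add ((norm_sub_le _ _).trans (add_le_add (hlr k) (hlr (k + 1)))) hz.le)
    rw [hr] at h3
    linarith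
  have h30 : l 3 = l 0 := by rw [hstep 2, hstep 1, hstep 0]
  have h5 : (3 : ℝ) • z = (x₀ + ((3 : ℕ) : ℝ) • z - l 3 - denseSeq E n) -
      (x₀ + ((0 : ℕ) : ℝ) • z - l 0 - denseSeq E n) := by
    rw [h30]
    push_cast
    rw [zero_smul]
    abel
  have h6 : ‖(3 : ℝ) • z‖ ≤ r + r := by
    rw [h5]
    exact (norm_sub_le _ _).trans (add_le_add (hlr 3) (hlr 0))
  rw [norm_smul, hz] at h6
  norm_num at h6
  linarith

/-- the weak closure of a relatively dense subgroup contains arbitrarily short nonzero vectors -/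
theorem short_vector [CompleteSpace E] [SeparableSpace E] (hE : ¬ FiniteDimensional ℝ E)
    (Λ : AddSubgroup E) {ρ : ℝ} (hden : ∀ x : E, ∃ l ∈ Λ, ‖x - l‖ ≤ ρ) {ε : ℝ} (hε : 0 < ε) :
    ∃ v : E, v ≠ 0 ∧ ‖v‖ < ε ∧ toWeakSpace ℝ E v ∈ closure (toWeakSpace ℝ E '' (Λ : Set E)) := by
  by_contra hcon
  push Not at hcon
  let e : E ≃ₗ[ℝ] WeakSpace ℝ E := toWeakSpace ℝ E
  let L : AddSubgroup (WeakSpace ℝ E) := Λ.map (e : E →+ WeakSpace ℝ E)
  let M : AddSubgroup E := (L.topologicalClosure).comap (e : E →+ WeakSpace ℝ E)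
  refine no_group hE M (δ := ε) (ρ := ρ) ?_ hε ?_ ?_
  · have h1 : toWeakSpace ℝ E '' (M : Set E) = (L.topologicalClosure : Set (WeakSpace ℝ E)) := by
      ext w
      constructor
      · rintro ⟨x, hx, rfl⟩
        exact hx
      · intro hw
        refine ⟨e.symm w, ?_, e.apply_symm_apply w⟩
        change e (e.symm w) ∈ L.topologicalClosure
        rw [e.apply_symm_apply]
        exact hw
    rw [h1]
    exact L.isClosed_topologicalClosure
  · intro l hl hl0
    by_contra hlt
    push Not at hlt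
    exact hcon l hl0 hlt hl
  · intro x
    obtain ⟨l, hl, h⟩ := hden x
    exact ⟨l, L.le_topologicalClosure ⟨l, hl, rfl⟩, h⟩

end Pool.Agent.Run7.h163.WL
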